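import Pool.Agent.H99.SQ.Defs

/-!
# Module ACT: the number of classes of powers of 2 modulo p^2
-/

set_option autoImplicit false

namespace Pool.Agent.H91.SQ

open Finset Filter Topology Pool.Agent.H99.SQ

theorem pf_ACT (h1 : T_ORD) : T_ACT := by
  classical
  intro p hp
  obtain ⟨hm, -, -, hcong, -, -⟩ := h1 p hp
  have hp2 : 0 < p ^ 2 := pow_pos hp.1.pos 2
  refine ⟨fun n => ?_, ?_⟩
  · have hk : ∀ l, Kill p (n + p ^ 2) l ↔ Kill p n l := by
      intro l
      unfold Kill
      rw [Nat.cast_add, ZMod.natCast_self, add_zero]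
    unfold ci
    simp only [hk]
  · have hsum : ∑ a ∈ range (p ^ 2), ci p a =
        (((range (p ^ 2)).filter fun a => ∃ l, Kill p a l).card : ℝ) := by
      rw [Finset.card_filter, Nat.cast_sum]
      refine Finset.sum_congr rfl fun a _ => ?_
      unfold ci
      split_ifs <;> simp
    rw [hsum]
    have hcard : ((range (p ^ 2)).filter fun a => ∃ l, Kill p a l).card ≤
        ((range (mm p)).image fun j => (2 : ZMod (p ^ 2)) ^ j).card := by
      refine Finset.card_le_card_of_injOn (fun a => (a : ZMod (p ^ 2))) ?_ ?_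
      · intro a ha
        simp only [Finset.coe_filter, Set.mem_setOf_eq] at ha
        obtain ⟨-, l, hl⟩ := ha
        simp only [Finset.coe_image, Set.mem_image, Finset.mem_coe, Finset.mem_range]
        refine ⟨l % mm p, Nat.mod_lt _ hm, ?_⟩
        have h2 : (2 : ZMod (p ^ 2)) ^ (l % mm p) = 2 ^ l :=
          (hcong _ _).2 (Nat.mod_modEq l (mm p))
        rw [h2]
        exact hl.symm
      · intro a ha b hb hab
        simp only [Finset.coe_filter, Set.mem_setOf_eq, Finset.mem_range] at ha hb
        have h3 : a ≡ b [MOD p ^ 2] := (ZMod.natCast_eq_natCast_iff a b (p ^ 2)).1 hab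
        exact Nat.ModEq.eq_of_lt_of_lt h3 ha.1 hb.1
    have h4 : ((range (mm p)).image fun j => (2 : ZMod (p ^ 2)) ^ j).card ≤ mm p := by
      refine Finset.card_image_le.trans ?_
      rw [Finset.card_range]
    exact_mod_cast hcard.trans h4

end Pool.Agent.H91.SQ
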