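import Pool.Agent.H99.SQ.Defs

/-!
# Module TA: few odd numbers have few representations
-/

set_option autoImplicit false

namespace Pool.Agent.H91.SQ

open Finset Filter Topology Pool.Agent.H99.SQ

theorem QQ_pos {F : Finset ℕ} (hF : ∀ p ∈ F, OP p) : 0 < QQ F :=
  Finset.prod_pos fun p hp => pow_pos (hF p hp).1.pos 2

theorem FF_OP (Y : ℕ) : ∀ p ∈ FF Y, OP p := by
  intro p hp
  unfold FF at hp
  exact (Finset.mem_filter.1 hp).2

theorem SS_mod (h5 : T_SEM) {F : Finset ℕ} (n : ℕ) : SS F (n % QQ F) = SS F n := by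
  unfold SS
  refine Finset.sum_congr rfl fun p hp => ?_
  have hd : p ^ 2 ∣ QQ F := Finset.dvd_prod_of_mem (fun p => p ^ 2) hp
  have hm : n % QQ F ≡ n [MOD p ^ 2] := (Nat.mod_modEq n (QQ F)).of_dvd hd
  have hk : (∃ l, Kill p (n % QQ F) l) ↔ ∃ l, Kill p n l :=
    exists_congr fun l => h5.2.1 p _ _ l hm
  have hc : ci p (n % QQ F) = ci p n := by
    unfold ci
    by_cases h : ∃ l, Kill p n l
    · rw [if_pos (hk.2 h), if_pos h]
    · rw [if_neg (fun h' => h (hk.1 h')), if_neg h]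
  rw [hc]

theorem card_small (c : ℝ) (hc : 0 ≤ c) (A : Finset ℕ) (hA : ∀ n ∈ A, (n : ℝ) ≤ c) :
    (A.card : ℝ) ≤ c + 1 := by
  have h1 : A ⊆ range (⌊c⌋₊ + 1) := by
    intro n hn
    rw [Finset.mem_range]
    exact Nat.lt_succ_of_le (Nat.le_floor (hA n hn))
  have h2 := Finset.card_le_card h1
  rw [Finset.card_range] at h2
  have h3 : ((A.card : ℕ) : ℝ) ≤ (⌊c⌋₊ : ℝ) + 1 := by exact_mod_cast h2
  linarith [Nat.floor_le hc]

theorem TA_general (h1 : T_PRB) (h2 : T_PC) (h3 : T_TL) (h4 : T_GA) (h5 : T_SEM) (Y : ℕ)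
    (hY : 1 ≤ Y) (x : ℕ) (hx : 1 ≤ x) (A : Finset ℕ)
    (hA : ∀ n ∈ A, n ≤ x ∧ Odd n ∧ 10 * (rep n : ℝ) < Real.log n) :
    (A.card : ℝ) ≤ x / 2 ^ 340 + 1 + (x / QQ (FF Y) + 1) * (QQ (FF Y) / 10 ^ 105) +
      200 * (x / Y) + (Real.exp (125 * ((FF Y).card + 4)) + 1) := by
  classical
  have hFO := FF_OP Y
  generalize hFdef : FF Y = F at hFO
  have hQ : 0 < QQ F := QQ_pos hFO
  generalize hQdef : QQ F = Q at hQ
  -- the sets
  set T : ℕ → Finset ℕ := fun n =>
    (range n).filter fun l => 2 ^ l < n ∧ ∃ p, p.Prime ∧ Y < p ∧ p ^ 2 ∣ n - 2 ^ l with hT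
  have hTmem : ∀ n l, l ∈ T n ↔ 2 ^ l < n ∧ ∃ p, p.Prime ∧ Y < p ∧ p ^ 2 ∣ n - 2 ^ l := by
    intro n l
    rw [hT]
    simp only [Finset.mem_filter, Finset.mem_range]
    constructor
    · exact fun h => h.2
    · exact fun h => ⟨lt_trans Nat.lt_two_pow_self h.1, h⟩
  set A1 := A.filter fun n : ℕ => (n : ℝ) ≤ x / 2 ^ 340 with hA1
  set A2 := A.filter fun n => 92 / 100 ≤ SS F n with hA2
  set A3 := A.filter fun n => Nat.log 2 x + 1 < 200 * (T n).card with hA3
  set A4 := A.filter fun n : ℕ => (n : ℝ) ≤ Real.exp (125 * (F.card + 4)) with hA4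
  have hcov : A ⊆ A1 ∪ A2 ∪ A3 ∪ A4 := by
    intro n hn
    simp only [Finset.mem_union, hA1, hA2, hA3, hA4, Finset.mem_filter, hn, true_and]
    by_contra hcon
    push Not at hcon
    obtain ⟨⟨⟨c1, c2⟩, c3⟩, c4⟩ := hcon
    obtain ⟨hnx, hodd, hrep⟩ := hA n hn
    have hn1 : 1 < n := by
      rcases Nat.lt_or_ge 1 n with h | h
      · exact h
      · exfalso
        interval_cases n
        · exact absurd hodd (by decide)
        · rw [Nat.cast_one, Real.log_one] at hrep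
          have : (0 : ℝ) ≤ (rep 1 : ℝ) := Nat.cast_nonneg _
          linarith
    have hx340 : x < 2 ^ 340 * n := by
      have h6 : (x : ℝ) < 2 ^ 340 * n := by
        rw [div_lt_iff₀ (by positivity)] at c1
        linarith
      exact_mod_cast h6
    have hga := h4 Y n x (T n) hodd hn1 hnx hx340 (hTmem n) (by rw [hFdef]; exact c2.le) c3
    rw [hFdef] at hga
    have hlog : Real.log n < 125 * (F.card + 4) := by nlinarith
    have hnpos : (0 : ℝ) < n := by exact_mod_cast (by omega : 0 < n)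
    have h7 : (n : ℝ) < Real.exp (125 * (F.card + 4)) := by
      rw [← Real.log_lt_iff_lt_exp hnpos]
      exact hlog
    exact absurd h7.le (not_le.2 c4)
  have c1 : (A1.card : ℝ) ≤ x / 2 ^ 340 + 1 :=
    card_small _ (by positivity) A1 fun n hn => (Finset.mem_filter.1 hn).2
  have c4 : (A4.card : ℝ) ≤ Real.exp (125 * (F.card + 4)) + 1 :=
    card_small _ (Real.exp_pos _).le A4 fun n hn => (Finset.mem_filter.1 hn).2
  have c2 : (A2.card : ℝ) ≤ (x / Q + 1) * (Q / 10 ^ 105) := by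
    set R := (range Q).filter fun r => 92 / 100 ≤ SS F r with hR
    have e1 : (R.card : ℝ) ≤ Q / 10 ^ 105 := by
      have := h1 F R hFO (fun a ha => by
        rw [hR, Finset.mem_filter, Finset.mem_range] at ha
        rw [hQdef]
        exact ha)
      rw [hQdef] at this
      exact this
    have e2 := h2 Q x R A2 hQ (fun n hn => by
      rw [hA2, Finset.mem_filter] at hn
      refine ⟨(hA n hn.1).1, ?_⟩
      rw [hR, Finset.mem_filter, Finset.mem_range]
      refine ⟨Nat.mod_lt _ hQ, ?_⟩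
      rw [← hQdef, SS_mod h5]
      exact hn.2)
    refine e2.trans ?_
    have : (0 : ℝ) ≤ x / Q + 1 := by positivity
    exact mul_le_mul_of_nonneg_left e1 this
  have c3 : (A3.card : ℝ) ≤ 200 * (x / Y) := by
    set L := Nat.log 2 x + 1 with hL
    set B : Finset (ℕ × ℕ) := A3.biUnion fun n => (T n).image fun l => (n, l) with hB
    have e1 : (B.card : ℝ) ≤ (Nat.log 2 x + 1) * (x / Y) := by
      refine h3 Y x B hY hx fun q hq => ?_
      rw [hB, Finset.mem_biUnion] at hq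
      obtain ⟨n, hn, hq⟩ := hq
      rw [Finset.mem_image] at hq
      obtain ⟨l, hl, rfl⟩ := hq
      rw [hA3, Finset.mem_filter] at hn
      obtain ⟨h6, p, -, h7, h8⟩ := (hTmem n l).1 hl
      exact ⟨(hA n hn.1).1, h6, p, h7, h8⟩
    have e2 : B.card = ∑ n ∈ A3, (T n).card := by
      rw [hB, Finset.card_biUnion]
      · refine Finset.sum_congr rfl fun n _ => ?_
        exact Finset.card_image_of_injective _ fun a b h => (Prod.mk.inj h).2
      · intro a _ b _ hab
        rw [Function.onFun, Finset.disjoint_left]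
        intro q hq hq'
        rw [Finset.mem_image] at hq hq'
        obtain ⟨l, -, rfl⟩ := hq
        obtain ⟨l', -, h⟩ := hq'
        exact hab (Prod.mk.inj h).1.symm
    have e3 : A3.card * L ≤ 200 * B.card := by
      rw [e2, Finset.mul_sum, ← smul_eq_mul, ← Finset.sum_const]
      refine Finset.sum_le_sum fun n hn => ?_
      rw [hA3, Finset.mem_filter] at hn
      exact hn.2.le
    have hLpos : (0 : ℝ) < L := by
      have : 0 < L := by omega
      exact_mod_cast this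
    have e4 : (A3.card : ℝ) * L ≤ 200 * (L * (x / Y)) := by
      have e5 : (A3.card : ℝ) * L ≤ 200 * (B.card : ℝ) := by exact_mod_cast e3
      have e6 : (B.card : ℝ) ≤ L * (x / Y) := by
        rw [hL]
        push_cast
        exact e1
      linarith
    have e7 : (A3.card : ℝ) * L ≤ (200 * (x / Y)) * L := by linarith
    exact le_of_mul_le_mul_right e7 hLpos
  have hle : A.card ≤ A1.card + A2.card + A3.card + A4.card := by
    refine (Finset.card_le_card hcov).trans ?_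
    refine (Finset.card_union_le _ _).trans ?_
    refine Nat.add_le_add_right ?_ _
    refine (Finset.card_union_le _ _).trans ?_
    refine Nat.add_le_add_right ?_ _
    exact Finset.card_union_le _ _
  have hle' : (A.card : ℝ) ≤ A1.card + A2.card + A3.card + A4.card := by exact_mod_cast hle
  linarith

theorem pf_TA (h1 : T_PRB) (h2 : T_PC) (h3 : T_TL) (h4 : T_GA) (h5 : T_SEM) : T_TA := by
  obtain ⟨Y, hY⟩ : ∃ Y : ℕ, 10 ^ 110 ≤ Y := ⟨_, le_rfl⟩
  have hYr : (10 : ℝ) ^ 110 ≤ Y := by exact_mod_cast hY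
  have hYpos : (0 : ℝ) < Y := lt_of_lt_of_le (by positivity) hYr
  have hY1 : 1 ≤ Y := by
    have : (0 : ℝ) < (Y : ℝ) := hYpos
    exact_mod_cast this
  have hQ : 0 < QQ (FF Y) := QQ_pos (FF_OP Y)
  have hQr : (0 : ℝ) < QQ (FF Y) := by exact_mod_cast hQ
  set C : ℝ := QQ (FF Y) / 10 ^ 105 + Real.exp (125 * ((FF Y).card + 4)) + 2 with hC
  refine ⟨⌈C * 10 ^ 101⌉₊ + 1, fun x hx A hA => ?_⟩
  have hx1 : 1 ≤ x := by omega
  have hxC : C * 10 ^ 101 ≤ x := by
    have h6 : (⌈C * 10 ^ 101⌉₊ : ℝ) ≤ x := by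
      have : ⌈C * 10 ^ 101⌉₊ ≤ x := by omega
      exact_mod_cast this
    exact (Nat.le_ceil _).trans h6
  have key := TA_general h1 h2 h3 h4 h5 Y hY1 x hx1 A hA
  have hxr : (0 : ℝ) ≤ x := Nat.cast_nonneg x
  have e1 : (x : ℝ) / 2 ^ 340 ≤ x / 10 ^ 102 := by
    apply div_le_div_of_nonneg_left hxr (by positivity)
    have h7 : (10 : ℝ) ^ 51 ≤ 2 ^ 170 := by norm_num
    have h8 : ((10 : ℝ) ^ 51) ^ 2 ≤ (2 ^ 170) ^ 2 := pow_le_pow_left₀ (by positivity) h7 2
    rw [← pow_mul, ← pow_mul] at h8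
    exact h8
  have e2 : (x / QQ (FF Y) + 1 : ℝ) * (QQ (FF Y) / 10 ^ 105) =
      x / 10 ^ 105 + QQ (FF Y) / 10 ^ 105 := by
    field_simp
  have e3 : (x : ℝ) / Y ≤ x / 10 ^ 110 := div_le_div_of_nonneg_left hxr (by positivity) hYr
  rw [e2] at key
  have e4 : C ≤ x / 10 ^ 101 := by
    rw [le_div_iff₀ (by positivity)]
    exact hxC
  have e5 : (x : ℝ) / 10 ^ 102 + x / 10 ^ 105 + 200 * (x / 10 ^ 110) + x / 10 ^ 101 ≤
      x / 10 ^ 100 := by
    have : (x : ℝ) / 10 ^ 102 + x / 10 ^ 105 + 200 * (x / 10 ^ 110) + x / 10 ^ 101 =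
        x * (1 / 10 ^ 102 + 1 / 10 ^ 105 + 200 / 10 ^ 110 + 1 / 10 ^ 101) := by ring
    rw [this, div_eq_mul_one_div (x : ℝ) (10 ^ 100)]
    apply mul_le_mul_of_nonneg_left _ hxr
    norm_num
  rw [hC] at e4
  linarith

end Pool.Agent.H91.SQ
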